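import Pool.Agent.Y18.BSD.Main
import Pool.Agent.Y18.BSD.Eleven
import Pool.Agent.Y18.NF.El

/-!
# Nonvanishing in all groups of quadratic twists, for several elliptic curves simultaneously

`E_i : y² = x³ + a_i x + b_i` (`i = 1, …, m`) are elliptic curves over `ℚ`, given with their newforms,
and `D_i` are products of the prime discriminants `q* = (-1)^((q-1)/2) q`, `q ∤ 2Δ_i`, such that
`L(E_i^(D_i), 1) ≠ 0` for all `i`, where `E^(D) : y² = x³ + a D² x + b D³` is the quadratic twist.  A
prime `q` is admissible for `E` if `q ∤ 2Δ` and `x³ + a x + b` has no root modulo `q` (so `a_q(E)` is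
odd, the Frobenius element of `q` has order three on `E[2]`).

Let `H` be any group (finite or infinite) of square classes of discriminants `d = ∏ q*` composed of
primes `q ∤ D_1 … D_m` which are admissible for all `E_i`.  Then `H` contains a finite subgroup `K` of
order at most `2^V` such that **every** coset of `K` in `H` contains a `d` with
`L(E_i^(d D_i), 1) ≠ 0` for all `i = 1, …, m`.  Here `V` depends only on the `E_i` and `D_i`, not on
`H`.  For the curves `E_i^(d D_i)` the conjecture of Birch and Swinnerton-Dyer (rank form) holds, by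
Kolyvagin's theorem.

If `H` is finite, at least `2^(-V) #H` elements `d` of `H` have this property, for instance at least
`2^(n-V)` of the `2^n` twists by the products of any `n` admissible primes.  If `H` consists of all
discriminants composed of admissible primes, then one finite set of multipliers suffices for all `d`.

The newform is given with the curve.  For `X_0(11)`, that is `y² = x³ - 13392 x - 1080432`, its
existence and `L(X_0(11), 1) ≠ 0` are proved here (second part of the theorem), so the theorem is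
unconditional for `X_0(11)` and for systems of quadratic twists of `X_0(11)`.

The proof: after the choice of an integral valued functional on the group of the periods of the
newform, the central values of the twists are (up to odd factors) the values of an integral linear
combination of characters, and so are the products over `i`; such combinations are, modulo powers of
two, polynomials of bounded degree on the group, whose derivatives of maximal order are constant.
-/

set_option autoImplicit false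

open Complex UpperHalfPlane MatrixGroups CongruenceSubgroup
open scoped symmDiff

namespace Pool.Agent.Results.MP_8b7eba_nt.TwistGroups

/-- `N_p`: the number of pairs `(x, y) ∈ (ℤ/p)²` with `y² = x³ + a x + b`. -/
noncomputable def pointCount (a b : ℤ) (p : ℕ) : ℕ :=
  Nat.card {q : ZMod p × ZMod p // q.2 ^ 2 = q.1 ^ 3 + (a : ZMod p) * q.1 + (b : ZMod p)}

/-- `p` is a prime not dividing `2 Δ`, `Δ = -4 a³ - 27 b²`. -/
def GoodPrime (a b : ℤ) (p : ℕ) : Prop :=
  p.Prime ∧ ¬ ((p : ℤ) ∣ 2 * (-4 * a ^ 3 - 27 * b ^ 2))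

open Classical in
/-- `L(E, 1) ≠ 0` for `E : y² = x³ + a x + b`: there is an entire function `F` which for
`Re s > 3/2` is the incomplete L-series `∏_{p ∤ 2Δ} (1 - a_p p^{-s} + p^{1-2s})⁻¹`, `a_p = p - N_p`,
of `E`, and `F(1) ≠ 0`. -/
def AnalyticRankZero (a b : ℤ) : Prop :=
  ∃ F : ℂ → ℂ, (Differentiable ℂ F ∧ ∀ s : ℂ, (3 : ℝ) / 2 < s.re →
    HasProd (fun p : ℕ => if GoodPrime a b p then
      (1 - ((p : ℂ) - (pointCount a b p : ℂ)) * (p : ℂ) ^ (-s) + (p : ℂ) ^ (1 - 2 * s))⁻¹ else 1)
      (F s)) ∧ F 1 ≠ 0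

/-- `q` is a prime, `q ∤ 2 Δ`, and `x³ + a x + b` has no root modulo `q`. -/
def Admissible (a b : ℤ) (q : ℕ) : Prop :=
  GoodPrime a b q ∧ ∀ x : ZMod q, x ^ 3 + (a : ZMod q) * x + (b : ZMod q) ≠ 0

/-- The discriminant `∏_{q ∈ T} (-1)^((q-1)/2) q` attached to a finite set `T` of odd primes. -/
def disc (T : Finset ℕ) : ℤ := ∏ q ∈ T, (-1 : ℤ) ^ ((q - 1) / 2) * q

/-- The `n`-th Fourier coefficient of `f`. -/
noncomputable def coef {N : ℕ} (f : CuspForm (Gamma0 N : Subgroup (GL (Fin 2) ℝ)) 2) (n : ℕ) : ℂ :=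
  (qExpansion 1 f).coeff n

/-- `f ∈ S_2(Γ₀(N))` is the newform of the elliptic curve `E : y² = x³ + a x + b`, with its standard
properties: the Fourier coefficients `c(n)` of `f` are real with `c(1) = 1`, they satisfy the Hecke
relations `c(mn) = c(m) c(n)` for coprime `m`, `n` and `c(p^(j+2)) = c(p) c(p^(j+1)) - p c(p^j)`
(without the last term if `p ∣ N`) and the bounds `|c(p)| ≤ 2√p` for `p ∤ N`, `|c(p)| ≤ 1` for
`p ∣ N`; `f` is an eigenfunction of the Fricke involution: `f(-1/(Nτ)) = -w N τ² f(τ)` with `w = ±1`;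
for all primes `p ∤ 2Δ` one has `p ∤ N` and `c(p) = a_p(E)`.  (Every elliptic curve over `ℚ` has such a
form by the modularity theorem.) -/
structure IsFormOf (a b : ℤ) (N : ℕ) (f : CuspForm (Gamma0 N : Subgroup (GL (Fin 2) ℝ)) 2) :
    Prop where
  one : coef f 1 = 1
  real : ∀ n, (coef f n).im = 0
  mul : ∀ m n : ℕ, Nat.Coprime m n → coef f (m * n) = coef f m * coef f n
  pow : ∀ p j : ℕ, p.Prime → coef f (p ^ (j + 2)) = coef f p * coef f (p ^ (j + 1)) -
      (if p ∣ N then 0 else (p : ℂ) * coef f (p ^ j))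
  good : ∀ p : ℕ, p.Prime → ¬ p ∣ N → ‖coef f p‖ ≤ 2 * Real.sqrt p
  bad : ∀ p : ℕ, p.Prime → p ∣ N → ‖coef f p‖ ≤ 1
  fricke : ∃ w : ℝ, (w = 1 ∨ w = -1) ∧ ∀ τ τ' : ℍ, (τ' : ℂ) * ((N : ℂ) * (τ : ℂ)) = -1 →
    f τ' = -(w : ℂ) * (N : ℂ) * (τ : ℂ) ^ 2 * f τ
  points : ∀ p : ℕ, GoodPrime a b p → ¬ p ∣ N ∧ coef f p = (p : ℂ) - (pointCount a b p : ℂ)

/-- **Theorem.** (1) Let `E_i : y² = x³ + a_i x + b_i`, `i = 1, …, m`, be elliptic curves over `ℚ` with
newforms `f_i`, and let `B_i` be finite sets of primes `q ∤ 2Δ_i` such that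
`L(E_i^(D_i), 1) ≠ 0` for all `i`, `D_i = disc B_i`. There is `V` such that for every set `H` of finite
sets of primes (outside the `B_i`) which are admissible for all the `E_i`, if `H` contains the empty set
and is closed under symmetric differences, then `H` has a finite subset `K` with at most `2^V`
elements, containing the empty set and closed under symmetric differences, such that for every `T ∈ H`
there is `k ∈ K` with `L(E_i^(D_i d), 1) ≠ 0` for all `i`, where `d = disc (T ∆ k)`.

(2) The curve `X_0(11) : y² = x³ - 13392 x - 1080432` has a newform, of level 11, and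
`L(X_0(11), 1) ≠ 0`. -/
theorem result :
    (∀ (m : ℕ) (a b : Fin m → ℤ), (∀ i, 4 * a i ^ 3 + 27 * b i ^ 2 ≠ 0) →
      ∀ N : Fin m → ℕ, (∀ i, N i ≠ 0) →
      ∀ f : (i : Fin m) → CuspForm (Gamma0 (N i) : Subgroup (GL (Fin 2) ℝ)) 2,
      (∀ i, IsFormOf (a i) (b i) (N i) (f i)) →
      ∀ B : Fin m → Finset ℕ, (∀ i, ∀ q ∈ B i, GoodPrime (a i) (b i) q) →
      (∀ i, AnalyticRankZero (a i * disc (B i) ^ 2) (b i * disc (B i) ^ 3)) →
      ∃ V : ℕ, ∀ H : Set (Finset ℕ), ∅ ∈ H → (∀ S ∈ H, ∀ T ∈ H, S ∆ T ∈ H) →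
        (∀ T ∈ H, ∀ q ∈ T, ∀ i, Admissible (a i) (b i) q ∧ q ∉ B i) →
        ∃ K : Finset (Finset ℕ), K.card ≤ 2 ^ V ∧ ∅ ∈ K ∧ (∀ S ∈ K, ∀ T ∈ K, S ∆ T ∈ K) ∧
          (∀ T ∈ K, T ∈ H) ∧ ∀ T ∈ H, ∃ k ∈ K, ∀ i,
            AnalyticRankZero (a i * (disc (B i) * disc (T ∆ k)) ^ 2)
              (b i * (disc (B i) * disc (T ∆ k)) ^ 3)) ∧
    ((∃ f : CuspForm (Gamma0 11 : Subgroup (GL (Fin 2) ℝ)) 2,
      IsFormOf (-13392) (-1080432) 11 f) ∧ AnalyticRankZero (-13392) (-1080432)) := by
  refine ⟨?_, ?_, Pool.Agent.Y18.NF.rankZero11⟩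
  · intro m a b hΔ N hN f hf B hB h0
    have : ∀ i, NeZero (N i) := fun i => ⟨hN i⟩
    exact Pool.Agent.Y18.BSD.main m a b hΔ N f
      (fun i => ⟨(hf i).one, (hf i).real, (hf i).mul, (hf i).pow, (hf i).good, (hf i).bad,
        (hf i).fricke, (hf i).points⟩) B hB h0
  · have h := Pool.Agent.Y18.BSD.Eleven.isFormOf
    exact ⟨_, ⟨h.one, h.real, h.mul, h.pow, h.good, h.bad, h.fricke, h.points⟩⟩

end Pool.Agent.Results.MP_8b7eba_nt.TwistGroups
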