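import Pool.Agent.Y687.MQ.Fin

/-!
Weak BSD (with existence of the entire `L`-function, its nonvanishing at `1`, and finiteness of the
rational points all proved) for the quadratic twists `E_D` of the non-CM curve
`X_0(14) : y² = x³ + 5805 x - 285714`, for the discriminants `D` of BOTH signs which are squarefree,
`≡ 1 mod 4`, prime to `42`, squares modulo `7`, and all of whose prime factors split completely in
`ℚ(i, √2, √-7)` or are inert in `ℚ(√2)` and in `ℚ(√-7)` (`ℚ(√-7)` is the `2`-division field), whenever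
the matrix `R D` over `𝔽₂` which governs the `2`-isogeny Selmer groups is nonsingular. The number of
the prime factors of each kind is arbitrary, and every product of such primes can be completed by one
inert prime, in infinitely many ways, so that this is the case.
-/

set_option autoImplicit false

open Finset

namespace Pool.Agent.Results.MP_8b7eba_nt.TwistsBothSigns

/-- coefficients of the twist `E_D : y² = x³ + A D x + B D` of `X_0(14)` -/
def A (D : ℤ) : ℤ := 5805 * D ^ 2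

/-- coefficients of the twist `E_D : y² = x³ + A D x + B D` of `X_0(14)` -/
def B (D : ℤ) : ℤ := -285714 * D ^ 3

/-- number of points of `E_D` over `ZMod p`, the point at infinity included -/
noncomputable def N (D : ℤ) (p : ℕ) : ℕ :=
  1 + Nat.card {z : ZMod p × ZMod p // z.2 ^ 2 = z.1 ^ 3 + (A D : ZMod p) * z.1 + (B D : ZMod p)}

/-- affine rational points of `E_D` -/
def RatPts (D : ℤ) : Set (ℚ × ℚ) := {z | z.2 ^ 2 = z.1 ^ 3 + (A D : ℚ) * z.1 + (B D : ℚ)}

/-- `f` is an entire function which equals the Euler product of `E_D` over the primes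
`p ∤ 2 (4 A³ + 27 B²)` on `Re s > 3 / 2` -/
def IsL (D : ℤ) (f : ℂ → ℂ) : Prop :=
  Differentiable ℂ f ∧ ∀ s : ℂ, (3 : ℝ) / 2 < s.re →
    HasProd
      (fun p : {p : ℕ // p.Prime ∧ ¬ ((p : ℤ) ∣ 2 * (4 * A D ^ 3 + 27 * B D ^ 2))} =>
        ((1 : ℂ) - (((p.1 : ℤ) + 1 - (N D p.1 : ℤ) : ℤ) : ℂ) * ((p.1 : ℂ) ^ (-s))
          + (p.1 : ℂ) ^ (1 - 2 * s))⁻¹)
      (f s)

/-- primes which split completely in `ℚ(i, √2, √-7)` -/
def Split (p : ℕ) : Prop := p.Prime ∧ p % 8 = 1 ∧ (p % 7 = 1 ∨ p % 7 = 2 ∨ p % 7 = 4)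

/-- primes inert in `ℚ(√2)` and in `ℚ(√-7)` -/
def Inert (q : ℕ) : Prop :=
  q.Prime ∧ (q % 8 = 3 ∨ q % 8 = 5) ∧ (q % 7 = 3 ∨ q % 7 = 5 ∨ q % 7 = 6)

/-- the class of discriminants -/
def Adm (D : ℤ) : Prop := Squarefree D ∧ D % 4 = 1 ∧ (D % 7 = 1 ∨ D % 7 = 2 ∨ D % 7 = 4) ∧
  ∀ p : ℕ, p.Prime → (p : ℤ) ∣ D → p ≠ 3 ∧ (Split p ∨ Inert p)

/-- the prime factors `≡ 1 mod 8` of `D` -/
def S (D : ℤ) : Finset ℕ := D.natAbs.primeFactors.filter fun p => p % 8 = 1

open Classical in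
/-- the matrix over `𝔽₂` with rows and columns indexed by `S D`: off the diagonal the
entry at `(p, p')` is `1` if `p'` is not a square modulo `p` and `0` otherwise; on the diagonal it
is the number of the prime factors of `D` different from `p` which are not squares modulo `p`, plus
`1` if the number of points of `X_0(14)` modulo `p` is not divisible by `8` -/
noncomputable def R (D : ℤ) : Matrix (S D) (S D) (ZMod 2) := Matrix.of fun i j =>
  if i = j then
    (((D.natAbs.primeFactors.filter fun r : ℕ => r ≠ (i : ℕ) ∧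
      ¬ IsSquare (r : ZMod (i : ℕ))).card : ZMod 2) + if 8 ∣ N 1 (i : ℕ) then 0 else 1)
  else if IsSquare (((j : ℕ)) : ZMod (i : ℕ)) then 0 else 1

theorem result :
    (∀ D : ℤ, Adm D → (R D).det ≠ 0 →
      4 * A D ^ 3 + 27 * B D ^ 2 ≠ 0 ∧ (∃ f : ℂ → ℂ, IsL D f) ∧
      (∀ f : ℂ → ℂ, IsL D f → f 1 ≠ 0) ∧ (RatPts D).Finite) ∧
    ∀ P T : Finset ℕ, (∀ p ∈ P, Split p) → (∀ q ∈ T, Inert q ∧ q ≠ 3) →
      {q : ℕ | Inert q ∧ q ∉ T ∧ ∃ D : ℤ, Adm D ∧ (R D).det ≠ 0 ∧
        D.natAbs = (∏ p ∈ P, p) * (∏ r ∈ T, r) * q}.Infinite := by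
  classical
  have hN : ∀ p : ℕ, N 1 p = Y687.NN 1 p := fun p => by
    unfold N Y687.NN Y687.cnt A B
    rw [add_comm]
    norm_num
  have hR : ∀ D : ℤ, R D = Y687.MQ.matD D := by
    intro D
    unfold R Y687.MQ.matD
    ext i j
    simp only [Matrix.of_apply, hN]
    rfl
  have hL : ∀ (D : ℤ) (f : ℂ → ℂ), IsL D f ↔ (Differentiable ℂ f ∧
      (∀ s : ℂ, (3 : ℝ) / 2 < s.re →
        HasProd (fun l : {l : ℕ // l.Prime ∧
            ¬ ((l : ℤ) ∣ 2 * (4 * (5805 * D ^ 2) ^ 3 +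
              27 * (-285714 * D ^ 3) ^ 2))} =>
          Y687.fac (5805 * D ^ 2) (-285714 * D ^ 3) s l)
          (f s))) := by
    intro D f
    unfold IsL Y687.fac
    refine and_congr Iff.rfl (forall_congr' fun s => imp_congr Iff.rfl ?_)
    have : ∀ l : ℕ, (l : ℤ) + 1 - (N D l : ℤ) = (l : ℤ) - (Nat.card {q : ZMod l × ZMod l //
        q.2 ^ 2 = q.1 ^ 3 + ((5805 * D ^ 2 : ℤ) : ZMod l) * q.1 +
          ((-285714 * D ^ 3 : ℤ) : ZMod l)} : ℤ) := by
      intro l
      unfold N A B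
      push_cast
      ring
    simp only [this]
    rfl
  refine ⟨fun D hD hdet => ?_, fun P T hP hT => ?_⟩
  · rw [hR] at hdet
    have hD' : Y687.MQ.AdmD D := hD
    obtain ⟨⟨f, hf, hfp, hf1⟩, hfin⟩ := Y687.MQ.WB_D hD' hdet
    have hM : D ≠ 0 := hD.1.ne_zero
    refine ⟨?_, ⟨f, (hL _ f).2 ⟨hf, hfp⟩⟩, ?_, hfin⟩
    · have e : 4 * A D ^ 3 + 27 * B D ^ 2 = (4 * 5805 ^ 3 + 27 * 285714 ^ 2) * D ^ 6 := by
        unfold A B
        ring
      rw [e]
      exact mul_ne_zero (by norm_num) (pow_ne_zero 6 hM)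
    · intro g hg
      obtain ⟨hg1, hg2⟩ := (hL _ g).1 hg
      rw [Y687.unique_f hg1 hf hg2 hfp]
      exact hf1
  · refine (Y687.MQ.inf_G hP (fun q hq => (hT q hq).1) (fun h3 => (hT 3 h3).2 rfl)).mono ?_
    rintro q ⟨h1, h2, h3⟩
    obtain ⟨h4, h5⟩ := (Y687.MQ.good_iff).2 ⟨P, insert q T, h3, rfl⟩
    refine ⟨h1, h2, _, h4, by rw [hR]; exact h5, ?_⟩
    have hdisj : Disjoint P (insert q T) := by
      rw [Finset.disjoint_left]
      intro p hp hq
      exact Y687.MQ.sp_not_inert (h3.sp p hp) (h3.inn p hq)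
    rw [Y687.MQ.disc_natAbs h3.sp h3.inn, Finset.prod_union hdisj, Finset.prod_insert h2]
    ring

end Pool.Agent.Results.MP_8b7eba_nt.TwistsBothSigns
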