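import Pool.Agent.Y687.K3.MainAB

/-!
Weak BSD (with existence of the entire `L`-function, its nonvanishing at `1`, and finiteness of the
rational points all proved) for the quadratic twists by `M = a * b * m` of the non-CM curve
`X_0(14) : y² = x³ + 5805 x - 285714`, where `m` is a product of primes inert in `ℚ(√2)` and in the
`2`-division field `ℚ(√-7)`, the prime `a` splits in `ℚ(√2)` only and the prime `b` splits in
`ℚ(√-7)` only, whenever `a` is not a square modulo `b`.  The twists by `a * m` and by `b * m` have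
root number `-1`.
-/

set_option autoImplicit false

open Finset

namespace Pool.Agent.Results.MP_8b7eba_nt.TwistsMixedPrimes

/-- coefficients of the twist `E_M : y² = x³ + A M x + B M` of `X_0(14)` -/
def A (M : ℕ) : ℤ := 5805 * (M : ℤ) ^ 2

/-- coefficients of the twist `E_M : y² = x³ + A M x + B M` of `X_0(14)` -/
def B (M : ℕ) : ℤ := -285714 * (M : ℤ) ^ 3

/-- number of points of `E_M` over `ZMod p`, the point at infinity included -/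
noncomputable def N (M p : ℕ) : ℕ :=
  1 + Nat.card {z : ZMod p × ZMod p // z.2 ^ 2 = z.1 ^ 3 + (A M : ZMod p) * z.1 + (B M : ZMod p)}

/-- affine rational points of `E_M` -/
def RatPts (M : ℕ) : Set (ℚ × ℚ) := {z | z.2 ^ 2 = z.1 ^ 3 + (A M : ℚ) * z.1 + (B M : ℚ)}

/-- `f` is an entire function which equals the Euler product of `E_M` over the primes
`p ∤ 2 (4 A³ + 27 B²)` on `Re s > 3 / 2` -/
def IsL (M : ℕ) (f : ℂ → ℂ) : Prop :=
  Differentiable ℂ f ∧ ∀ s : ℂ, (3 : ℝ) / 2 < s.re →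
    HasProd
      (fun p : {p : ℕ // p.Prime ∧ ¬ ((p : ℤ) ∣ 2 * (4 * A M ^ 3 + 27 * B M ^ 2))} =>
        ((1 : ℂ) - (((p.1 : ℤ) + 1 - (N M p.1 : ℤ) : ℤ) : ℂ) * ((p.1 : ℂ) ^ (-s))
          + (p.1 : ℂ) ^ (1 - 2 * s))⁻¹)
      (f s)

/-- primes congruent to `1` modulo `4` inert in `ℚ(√2)` and in `ℚ(√-7)` -/
def Inert (q : ℕ) : Prop := q.Prime ∧ q % 8 = 5 ∧ (q % 7 = 3 ∨ q % 7 = 5 ∨ q % 7 = 6)

/-- primes congruent to `1` modulo `4` split in `ℚ(√2)` and inert in `ℚ(√-7)` -/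
def SplitTwo (a : ℕ) : Prop := a.Prime ∧ a % 8 = 1 ∧ (a % 7 = 3 ∨ a % 7 = 5 ∨ a % 7 = 6)

/-- primes congruent to `1` modulo `4` inert in `ℚ(√2)` and split in `ℚ(√-7)` -/
def SplitSeven (b : ℕ) : Prop := b.Prime ∧ b % 8 = 5 ∧ (b % 7 = 1 ∨ b % 7 = 2 ∨ b % 7 = 4)

theorem result :
    (∀ (a b : ℕ) (S : Finset ℕ), SplitTwo a → SplitSeven b → (∀ q ∈ S, Inert q) →
      ¬ IsSquare (a : ZMod b) →
        4 * A (a * b * ∏ q ∈ S, q) ^ 3 + 27 * B (a * b * ∏ q ∈ S, q) ^ 2 ≠ 0 ∧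
        (∃ f : ℂ → ℂ, IsL (a * b * ∏ q ∈ S, q) f) ∧
        (∀ f : ℂ → ℂ, IsL (a * b * ∏ q ∈ S, q) f → f 1 ≠ 0) ∧
        (RatPts (a * b * ∏ q ∈ S, q)).Finite) ∧
      (∀ a : ℕ, SplitTwo a → {b : ℕ | SplitSeven b ∧ ¬ IsSquare (a : ZMod b)}.Infinite) ∧
      (∀ b : ℕ, SplitSeven b → {a : ℕ | SplitTwo a ∧ ¬ IsSquare (a : ZMod b)}.Infinite) := by
  have hL : ∀ (M : ℕ) (f : ℂ → ℂ), IsL M f ↔ (Differentiable ℂ f ∧
      (∀ s : ℂ, (3 : ℝ) / 2 < s.re →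
        HasProd (fun l : {l : ℕ // l.Prime ∧
            ¬ ((l : ℤ) ∣ 2 * (4 * (5805 * (M : ℤ) ^ 2) ^ 3 +
              27 * (-285714 * (M : ℤ) ^ 3) ^ 2))} =>
          Y687.fac (5805 * (M : ℤ) ^ 2) (-285714 * (M : ℤ) ^ 3) s l)
          (f s))) := by
    intro M f
    unfold IsL Y687.fac
    refine and_congr Iff.rfl (forall_congr' fun s => imp_congr Iff.rfl ?_)
    have : ∀ l : ℕ, (l : ℤ) + 1 - (N M l : ℤ) = (l : ℤ) - (Nat.card {q : ZMod l × ZMod l //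
        q.2 ^ 2 = q.1 ^ 3 + ((5805 * (M : ℤ) ^ 2 : ℤ) : ZMod l) * q.1 +
          ((-285714 * (M : ℤ) ^ 3 : ℤ) : ZMod l)} : ℤ) := by
      intro l
      unfold N A B
      push_cast
      ring
    simp only [this]
    rfl
  refine ⟨?_, fun a ha => Y687.infinite_B ha, fun b hb => Y687.infinite_A hb⟩
  intro a b S ha hb hS hN
  have ha' : Y687.TypeA a := ha
  have hb' : Y687.TypeB b := hb
  have hS' : ∀ q ∈ S, Y687.Inert q := hS
  obtain ⟨⟨f, hf, hfp, hf1⟩, hfin⟩ := Y687.mainAB ha' hb' hS' hN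
  have hM : ((a * b * ∏ q ∈ S, q : ℕ) : ℤ) ≠ 0 := by
    refine Int.natCast_ne_zero.2 (Nat.mul_ne_zero (Nat.mul_ne_zero ha.1.ne_zero hb.1.ne_zero) ?_)
    exact Finset.prod_ne_zero_iff.2 fun r hr => (hS r hr).1.ne_zero
  refine ⟨?_, ⟨f, (hL _ f).2 ⟨hf, hfp⟩⟩, ?_, hfin⟩
  · have e : 4 * A (a * b * ∏ q ∈ S, q) ^ 3 + 27 * B (a * b * ∏ q ∈ S, q) ^ 2 =
        (4 * 5805 ^ 3 + 27 * 285714 ^ 2) * ((a * b * ∏ q ∈ S, q : ℕ) : ℤ) ^ 6 := by
      unfold A B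
      ring
    rw [e]
    exact mul_ne_zero (by norm_num) (pow_ne_zero 6 hM)
  · intro g hg
    obtain ⟨hg1, hg2⟩ := (hL _ g).1 hg
    rw [Y687.unique_f hg1 hf hg2 hfp]
    exact hf1

end Pool.Agent.Results.MP_8b7eba_nt.TwistsMixedPrimes
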