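import Pool.Agent.Y687.K2.Main2

/-!
Weak BSD (with existence of the entire `L`-function, its nonvanishing at `1`, and finiteness of the
rational points all proved) for the quadratic twists by `M = p₁ * p₂ * m` of the non-CM curve
`X_0(14) : y² = x³ + 5805 x - 285714`, where `m` is a product of primes inert in the `2`-division
field `ℚ(√-7)` and in `ℚ(√2)` and `p₁ ≠ p₂` are primes congruent to `1` modulo `8` which split in
the `2`-division field, whenever the `2 × 2` matrix over `𝔽₂` which governs the `2`-isogeny Selmer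
groups is nonsingular.
-/

set_option autoImplicit false

open Finset

namespace Pool.Agent.Results.MP_8b7eba_nt.TwistsTwoSplitPrimes

/-- coefficients of the twist `E_M : y² = x³ + A M x + B M` of `X_0(14)` -/
def A (M : ℕ) : ℤ := 5805 * (M : ℤ) ^ 2

/-- coefficients of the twist `E_M : y² = x³ + A M x + B M` of `X_0(14)` -/
def B (M : ℕ) : ℤ := -285714 * (M : ℤ) ^ 3

/-- number of points of `E_M` over `ZMod p`, the point at infinity included -/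
noncomputable def N (M p : ℕ) : ℕ :=
  1 + Nat.card {z : ZMod p × ZMod p // z.2 ^ 2 = z.1 ^ 3 + (A M : ZMod p) * z.1 + (B M : ZMod p)}

/-- affine rational points of `E_M` -/
def RatPts (M : ℕ) : Set (ℚ × ℚ) := {z | z.2 ^ 2 = z.1 ^ 3 + (A M : ℚ) * z.1 + (B M : ℚ)}

/-- `f` is an entire function which equals the Euler product of `E_M` over the primes
`p ∤ 2 (4 A³ + 27 B²)` on `Re s > 3 / 2` -/
def IsL (M : ℕ) (f : ℂ → ℂ) : Prop :=
  Differentiable ℂ f ∧ ∀ s : ℂ, (3 : ℝ) / 2 < s.re →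
    HasProd
      (fun p : {p : ℕ // p.Prime ∧ ¬ ((p : ℤ) ∣ 2 * (4 * A M ^ 3 + 27 * B M ^ 2))} =>
        ((1 : ℂ) - (((p.1 : ℤ) + 1 - (N M p.1 : ℤ) : ℤ) : ℂ) * ((p.1 : ℂ) ^ (-s))
          + (p.1 : ℂ) ^ (1 - 2 * s))⁻¹)
      (f s)

/-- primes inert in `ℚ(√-7)` and in `ℚ(√2)` and congruent to `1` modulo `4` -/
def Inert (q : ℕ) : Prop := q.Prime ∧ q % 8 = 5 ∧ (q % 7 = 3 ∨ q % 7 = 5 ∨ q % 7 = 6)

/-- primes congruent to `1` modulo `8` that split in `ℚ(√-7)` -/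
def Split (p : ℕ) : Prop := p.Prime ∧ p % 8 = 1 ∧ (p % 7 = 1 ∨ p % 7 = 2 ∨ p % 7 = 4)

/-- the condition on the pair of split primes: both, and if `p₁` is not a square modulo `p₂` at
least one, of the numbers of points of `E_m` modulo `p₁` and modulo `p₂` are not divisible by `8` -/
def Cond (p₁ p₂ m : ℕ) : Prop :=
  (¬ 8 ∣ N m p₁ ∧ ¬ 8 ∣ N m p₂) ∨
    (¬ IsSquare (p₁ : ZMod p₂) ∧ (¬ 8 ∣ N m p₁ ∨ ¬ 8 ∣ N m p₂))

theorem result :
    ∀ (p₁ p₂ : ℕ) (S : Finset ℕ), Split p₁ → Split p₂ → p₁ ≠ p₂ → (∀ q ∈ S, Inert q) →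
      (Cond p₁ p₂ (∏ q ∈ S, q) →
        4 * A (p₁ * p₂ * ∏ q ∈ S, q) ^ 3 + 27 * B (p₁ * p₂ * ∏ q ∈ S, q) ^ 2 ≠ 0 ∧
        (∃ f : ℂ → ℂ, IsL (p₁ * p₂ * ∏ q ∈ S, q) f) ∧
        (∀ f : ℂ → ℂ, IsL (p₁ * p₂ * ∏ q ∈ S, q) f → f 1 ≠ 0) ∧
        (RatPts (p₁ * p₂ * ∏ q ∈ S, q)).Finite) ∧
      {q : ℕ | Inert q ∧ q ∉ S ∧ Cond p₁ p₂ (∏ r ∈ insert q S, r)}.Infinite := by
  intro p₁ p₂ S hp₁ hp₂ hne hS
  have hp1' : Y687.Split p₁ := hp₁
  have hp2' : Y687.Split p₂ := hp₂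
  have hS' : ∀ q ∈ S, Y687.Inert q := hS
  have hN : ∀ m p : ℕ, N m p = Y687.NN m p := fun m p => by
    unfold N Y687.NN Y687.cnt A B
    rw [add_comm]
  have hL : ∀ (M : ℕ) (f : ℂ → ℂ), IsL M f ↔ (Differentiable ℂ f ∧
      (∀ s : ℂ, (3 : ℝ) / 2 < s.re →
        HasProd (fun l : {l : ℕ // l.Prime ∧
            ¬ ((l : ℤ) ∣ 2 * (4 * (5805 * (M : ℤ) ^ 2) ^ 3 +
              27 * (-285714 * (M : ℤ) ^ 3) ^ 2))} =>
          Y687.fac (5805 * (M : ℤ) ^ 2) (-285714 * (M : ℤ) ^ 3) s l)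
          (f s))) := by
    intro M f
    unfold IsL Y687.fac
    refine and_congr Iff.rfl (forall_congr' fun s => imp_congr Iff.rfl ?_)
    have : ∀ l : ℕ, (l : ℤ) + 1 - (N M l : ℤ) = (l : ℤ) - (Nat.card {q : ZMod l × ZMod l //
        q.2 ^ 2 = q.1 ^ 3 + ((5805 * (M : ℤ) ^ 2 : ℤ) : ZMod l) * q.1 +
          ((-285714 * (M : ℤ) ^ 3 : ℤ) : ZMod l)} : ℤ) := by
      intro l
      unfold N A B
      push_cast
      ring
    simp only [this]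
    rfl
  refine ⟨fun h8 => ?_, ?_⟩
  · have h8' : Y687.Cond2 p₁ p₂ (∏ q ∈ S, q) := by
      unfold Cond at h8
      simp only [hN] at h8
      exact h8
    obtain ⟨⟨f, hf, hfp, hf1⟩, hfin⟩ := Y687.main2 hne hp1' hp2' hS' h8'
    have hM : ((p₁ * p₂ * ∏ q ∈ S, q : ℕ) : ℤ) ≠ 0 := by
      refine Int.natCast_ne_zero.2 (Nat.mul_ne_zero (Nat.mul_ne_zero hp₁.1.ne_zero hp₂.1.ne_zero) ?_)
      exact Finset.prod_ne_zero_iff.2 fun r hr => (hS r hr).1.ne_zero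
    refine ⟨?_, ⟨f, (hL _ f).2 ⟨hf, hfp⟩⟩, ?_, hfin⟩
    · have e : 4 * A (p₁ * p₂ * ∏ q ∈ S, q) ^ 3 + 27 * B (p₁ * p₂ * ∏ q ∈ S, q) ^ 2 =
          (4 * 5805 ^ 3 + 27 * 285714 ^ 2) * ((p₁ * p₂ * ∏ q ∈ S, q : ℕ) : ℤ) ^ 6 := by
        unfold A B
        ring
      rw [e]
      exact mul_ne_zero (by norm_num) (pow_ne_zero 6 hM)
    · intro g hg
      obtain ⟨hg1, hg2⟩ := (hL _ g).1 hg
      rw [Y687.unique_f hg1 hf hg2 hfp]
      exact hf1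
  · refine (Y687.infinite_q2 hne hp1' hp2' hS').mono ?_
    rintro q ⟨h1, h2, h3, h4⟩
    refine ⟨h1, h2, Or.inl ?_⟩
    rw [hN, hN]
    exact ⟨h3, h4⟩

end Pool.Agent.Results.MP_8b7eba_nt.TwistsTwoSplitPrimes
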